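import Pool.Agent.Y754.BL.Law

/-!
# The leading term of `L(E/K, s)` at `s = 1` as a limit of finite sums and numbers of points

`E : y² = x³ + a x + b` is an elliptic curve over an arbitrary number field `K`, `a, b` integral.  No
continuation of `L(E/K, s)` is assumed in the first two parts of the theorem.
-/

set_option autoImplicit false

namespace Pool.Agent.Results.MP_9ab903_nt.LeadingTermLaw

open Filter Topology NumberField IsDedekindDomain

variable {K : Type} [Field K] [NumberField K]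

/-! ### the Euler product -/

/-- The finite place `v` does not divide `6 (4 a³ + 27 b²)`. -/
def Good (a b : 𝓞 K) (v : HeightOneSpectrum (𝓞 K)) : Prop :=
  6 * (4 * a ^ 3 + 27 * b ^ 2) ∉ v.asIdeal

/-- `q_v`, the number of elements of the residue field `k_v`. -/
noncomputable def q (v : HeightOneSpectrum (𝓞 K)) : ℕ := Ideal.absNorm v.asIdeal

/-- `#E(k_v)`, with the point at infinity. -/
noncomputable def numPoints (a b : 𝓞 K) (v : HeightOneSpectrum (𝓞 K)) : ℕ :=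
  Nat.card {P : (𝓞 K ⧸ v.asIdeal) × (𝓞 K ⧸ v.asIdeal) // P.2 ^ 2 =
    P.1 ^ 3 + Ideal.Quotient.mk v.asIdeal a * P.1 + Ideal.Quotient.mk v.asIdeal b} + 1

/-- The Euler factor `(1 - a_v q_v^{-s} + q_v^{1-2s})⁻¹`, `a_v = q_v + 1 - #E(k_v)`. -/
noncomputable def factor (a b : 𝓞 K) (s : ℂ) (v : {v : HeightOneSpectrum (𝓞 K) // Good a b v}) : ℂ :=
  (1 - ((q v.1 : ℂ) + 1 - numPoints a b v.1) * (q v.1 : ℂ) ^ (-s) + (q v.1 : ℂ) ^ (1 - 2 * s))⁻¹

/-- `F` is entire and equal to the Euler product over the good places for `Re s > 3/2`. -/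
def IsLSeries (a b : 𝓞 K) (F : ℂ → ℂ) : Prop :=
  Differentiable ℂ F ∧ ∀ s : ℂ, 3 / 2 < s.re → HasProd (factor a b s) (F s)

/-- The open sector `0 < |s - 1|`, `|arg (s - 1)| < π / (2 ρ)` with vertex `1`. -/
def sector (ρ : ℝ) : Set ℂ := {s : ℂ | s - 1 ≠ 0 ∧ |(s - 1).arg| < Real.pi / (2 * ρ)}

/-- `G` is analytic and without zeros in the sector `sector ρ₀` and for `Re s > 3/2`, it is equal to the
Euler product over the good places for `Re s > 3/2`, and `G(s) / (s - 1)^r` tends to `A` when `s` tends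
to `1` in `sector ρ`, for all `ρ > ρ₀`. -/
def LeadingTerm (a b : 𝓞 K) (ρ₀ : ℝ) (r : ℕ) (A : ℝ) (G : ℂ → ℂ) : Prop :=
  (∀ s : ℂ, s ∈ sector ρ₀ ∨ 3 / 2 < s.re → DifferentiableAt ℂ G s ∧ G s ≠ 0) ∧
  (∀ s : ℂ, 3 / 2 < s.re → HasProd (factor a b s) (G s)) ∧
  ∀ ρ : ℝ, ρ₀ < ρ → Tendsto (fun s => G s / (s - 1) ^ r) (𝓝[sector ρ] 1) (𝓝 (A : ℂ))

/-! ### the finite sums -/

/-- The weight `(2π)⁻¹ ∫ Re (exp (z - u z^{1/ρ}) / z) dt`, `z = 1 + i t`: the value at `1` of the inverse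
Laplace transform of `e^{-u z^{1/ρ}} / z`. -/
noncomputable def weight (ρ u : ℝ) : ℝ :=
  (2 * Real.pi)⁻¹ * ∫ t : ℝ, (Complex.exp ((1 + t * Complex.I) -
    u * (1 + t * Complex.I) ^ ((ρ⁻¹ : ℝ) : ℂ)) / (1 + t * Complex.I)).re

/-- `powerSum t q k = α^k + β^k`, where `α, β` are the roots of `T² - t T + q`. -/
def powerSum (t q : ℝ) : ℕ → ℝ
  | 0 => 2
  | 1 => t
  | (k + 2) => t * powerSum t q (k + 1) - q * powerSum t q k

/-- The finite sum `∑ weight ρ (k log q_v / log Y) · (α_v^k + β_v^k) / (k q_v^k)` over the good places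
`v` and the integers `k ≥ 1` with `q_v^k ≤ exp ((log Y)^ρ')`, where `α_v, β_v` are the eigenvalues of
the Frobenius at `v`; the integer `k` is `p.2 + 1`. -/
noncomputable def localSum (a b : 𝓞 K) (ρ ρ' Y : ℝ) : ℝ :=
  ∑ᶠ (p : {v : HeightOneSpectrum (𝓞 K) // Good a b v} × ℕ)
    (_ : (q p.1.1 : ℝ) ^ (p.2 + 1) ≤ Real.exp (Real.log Y ^ ρ')),
    weight ρ (((p.2 : ℝ) + 1) * Real.log (q p.1.1) / Real.log Y) *
      (powerSum ((q p.1.1 : ℝ) + 1 - numPoints a b p.1.1) (q p.1.1) (p.2 + 1) /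
        (((p.2 : ℝ) + 1) * (q p.1.1 : ℝ) ^ (p.2 + 1)))

/-! ### the global points -/

/-- The curve `y² = x³ + a x + b` over `K`. -/
noncomputable def curve (a b : 𝓞 K) : WeierstrassCurve.Affine K :=
  WeierstrassCurve.toAffine
    { a₁ := 0, a₂ := 0, a₃ := 0, a₄ := (a : K), a₆ := (b : K) }

/-- The logarithmic height `h(x(P))` relative to `K`; it is `0` for the point at infinity. -/
noncomputable def height {a b : 𝓞 K} (P : (curve a b).Point) : ℝ := Height.logHeight P.xRep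

/-- The number of the points `P` in `E(K)` with `h(x(P)) ≤ B`. -/
noncomputable def countPoints (a b : 𝓞 K) (B : ℝ) : ℕ :=
  Nat.card {P : (curve a b).Point // height P ≤ B}

open Classical in
/-- `g` is a basis of `E(K)` modulo torsion. -/
def IsBasis {a b : 𝓞 K} {r : ℕ} (g : Fin r → (curve a b).Point) : Prop :=
  ∀ P : (curve a b).Point, ∃! n : Fin r → ℤ, IsOfFinAddOrder (P - ∑ i, n i • g i)

open Classical in
/-- `ĥ(P) = lim 4^{-k} h(x(2^k P))`. -/
def IsCanonicalHeight {a b : 𝓞 K} (h : (curve a b).Point → ℝ) : Prop :=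
  ∀ P : (curve a b).Point,
    Tendsto (fun k : ℕ => height ((2 ^ k : ℕ) • P) / 4 ^ k) atTop (𝓝 (h P))

open Classical in
/-- The regulator, the determinant of `⟨g_i, g_j⟩ = (ĥ(g_i + g_j) - ĥ(g_i) - ĥ(g_j)) / 2`. -/
noncomputable def regulator {a b : 𝓞 K} (h : (curve a b).Point → ℝ) {r : ℕ}
    (g : Fin r → (curve a b).Point) : ℝ :=
  (Matrix.of fun i j : Fin r => (h (g i + g j) - h (g i) - h (g j)) / 2).det

open Classical in
/-- The number of the torsion points. -/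
noncomputable def torsion (a b : 𝓞 K) : ℕ :=
  Nat.card {t : (curve a b).Point // IsOfFinAddOrder t}

/-- The volume `π^{r/2} / Γ(r/2 + 1)` of the unit ball of dimension `r`. -/
noncomputable def ballVolume (r : ℕ) : ℝ := √Real.pi ^ r / Real.Gamma (r / 2 + 1)

/-- `log (A · #E(K)_tors · V_r / √Reg) - r γ / ρ`, `γ` Euler's constant. -/
noncomputable def limitValue {a b : 𝓞 K} (h : (curve a b).Point → ℝ) {r : ℕ}
    (g : Fin r → (curve a b).Point) (A ρ : ℝ) : ℝ :=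
  Real.log (A * (torsion a b * ballVolume r / √(regulator h g))) -
    r * Real.eulerMascheroniConstant / ρ

/-- The local sum plus the logarithm of the number of the points of height at most `(log Y)²` tends to
`l`. -/
def Law (a b : 𝓞 K) (ρ ρ' l : ℝ) : Prop :=
  Tendsto (fun Y : ℝ => localSum a b ρ ρ' Y + Real.log (countPoints a b (Real.log Y ^ 2))) atTop
    (𝓝 l)

lemma powerSum_eq (t q : ℝ) (k : ℕ) : powerSum t q k = Y754.BL.pw t q k := by
  induction k using Nat.strong_induction_on with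
  | _ k ih =>
    match k with
    | 0 => rfl
    | 1 => rfl
    | (k + 2) =>
      simp only [powerSum, Y754.BL.pw]
      rw [ih k (by omega), ih (k + 1) (by omega)]

/-- Every elliptic curve over every number field.  (1) There are a basis modulo torsion with `r`
elements and a canonical height, and the regulator is positive.  (2) For every `A > 0` and `ρ₀ ≥ 1`: the
laws with the limits `limitValue A ρ` hold for all `ρ > ρ₀` if and only if `L(E/K, s)` has a continuation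
without zeros to the sector with the leading term `A (s - 1)^r` at the vertex.  (3) If the limit exists
for one `ρ`, then it is `limitValue A ρ` for some `A > 0` and `L(E/K, s)` has such a continuation with
`ρ₀ = ρ`.  (4) If `L(E/K, s)` is entire, the laws for all `ρ > ρ₀` are equivalent to
`L(E/K, s) / (s - 1)^r → A` (`s → 1`) together with the absence of zeros in the sector.  (5) If
`L(E/K, s)` is entire and has no zeros on the real interval `(1, 3/2]`, then for all large `ρ` the single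
law for `ρ` is equivalent to `L(E/K, s) / (s - 1)^r → A`. -/
theorem result (a b : 𝓞 K) (hΔ : 4 * a ^ 3 + 27 * b ^ 2 ≠ 0) :
    (∃ (r : ℕ) (g : Fin r → (curve a b).Point), IsBasis g) ∧
    ∃ h : (curve a b).Point → ℝ, IsCanonicalHeight h ∧
      ∀ (r : ℕ) (g : Fin r → (curve a b).Point), IsBasis g →
        0 < regulator h g ∧
        (∀ ρ₀ A : ℝ, 1 ≤ ρ₀ → 0 < A →
          ((∀ ρ ρ' : ℝ, ρ₀ < ρ → ρ < ρ' → Law a b ρ ρ' (limitValue h g A ρ)) ↔
            ∃ G : ℂ → ℂ, LeadingTerm a b ρ₀ r A G)) ∧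
        (∀ ρ ρ' l : ℝ, 1 < ρ → ρ < ρ' → Law a b ρ ρ' l →
          ∃ A : ℝ, 0 < A ∧ l = limitValue h g A ρ ∧ ∃ G : ℂ → ℂ, LeadingTerm a b ρ r A G) ∧
        ∀ F : ℂ → ℂ, IsLSeries a b F →
          (∀ ρ₀ A : ℝ, 1 ≤ ρ₀ → 0 < A →
            ((∀ ρ ρ' : ℝ, ρ₀ < ρ → ρ < ρ' → Law a b ρ ρ' (limitValue h g A ρ)) ↔
              (∀ s ∈ sector ρ₀, F s ≠ 0) ∧
                Tendsto (fun s => F s / (s - 1) ^ r) (𝓝[≠] 1) (𝓝 (A : ℂ)))) ∧
          ((∀ x : ℝ, 1 < x → x ≤ 3 / 2 → F x ≠ 0) → ∃ ρ₁ : ℝ, 1 < ρ₁ ∧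
            ∀ ρ ρ' A : ℝ, ρ₁ < ρ → ρ < ρ' → 0 < A →
              (Tendsto (fun s => F s / (s - 1) ^ r) (𝓝[≠] 1) (𝓝 (A : ℂ)) ↔
                Law a b ρ ρ' (limitValue h g A ρ))) := by
  classical
  have hfac : ∀ s : ℂ, factor a b s =
      fun v : {v : HeightOneSpectrum (𝓞 K) // TH942.ES.GoodV a b v} =>
        TH942.ES.efV a b v.1 s := by
    intro s
    funext v
    unfold factor TH942.ES.efV numPoints q
    push_cast
    rw [add_sub_add_right_eq_sub]
    rfl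
  have hsec : ∀ ρ : ℝ, sector ρ = {s : ℂ | s - 1 ∈ TH942.SL.Sect ρ} := fun ρ => rfl
  have hlead : ∀ (ρ₀ : ℝ) (r : ℕ) (A : ℝ), (∃ G, LeadingTerm a b ρ₀ r A G) ↔
      ∃ G, Y754.BL.Lead a b ρ₀ r A G := by
    intro ρ₀ r A
    refine exists_congr fun G => ?_
    unfold LeadingTerm Y754.BL.Lead Y697.SL.ZFree
    simp only [hfac]
    rw [and_assoc]
    exact Iff.rfl
  have hsum : ∀ ρ ρ' Y : ℝ, localSum a b ρ ρ' Y = Y754.BL.psum a b ρ ρ' Y := by
    intro ρ ρ' Y
    unfold localSum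
    simp only [powerSum_eq]
    rfl
  have hlaw : ∀ ρ ρ' l : ℝ, Law a b ρ ρ' l ↔ Y754.BL.Lw a b ρ ρ' l := by
    intro ρ ρ' l
    unfold Law Y754.BL.Lw
    simp only [hsum]
    exact Iff.rfl
  have hD' : 4 * (a : K) ^ 3 + 27 * (b : K) ^ 2 ≠ 0 := by
    intro h
    apply hΔ
    apply RingOfIntegers.coe_injective
    rw [map_zero, map_add, map_mul, map_mul, map_pow, map_pow, map_ofNat, map_ofNat]
    exact h
  refine ⟨TH942.exists_basis (TH942.sfg hD'), ?_⟩
  obtain ⟨h, h1, h2⟩ := Y754.BL.ner_log (a := a) (b := b) hΔ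
  refine ⟨h, h1, fun r g hg => ?_⟩
  obtain ⟨h3, h4, h5⟩ := h2 r g hg
  have hval : ∀ A ρ : ℝ, limitValue h g A ρ = Real.log (A *
      Y754.BL.kap (Nat.card {t : TH942.SPt (a : K) (b : K) // IsOfFinAddOrder t}) r
        (TH942.gram h g).det) - r * Real.eulerMascheroniConstant / ρ := fun A ρ => rfl
  refine ⟨h3, fun ρ₀ A hρ₀ hA => ?_, fun ρ ρ' l hρ hρ' hl => ?_, fun F hF => ?_⟩
  · rw [hlead, ← Y754.BL.law_all h4 h5 hρ₀ hA]
    simp only [hlaw, hval]
  · obtain ⟨G, hG⟩ := Y754.BL.law_one h4 h5 hρ hρ' ((hlaw _ _ _).1 hl)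
    refine ⟨_, div_pos (Real.exp_pos _) h4, ?_, (hlead _ _ _).2 ⟨G, hG⟩⟩
    rw [hval, div_mul_cancel₀ _ h4.ne', Real.log_exp]
    ring
  · have hL : Y697.DL.IsL a b F := ⟨hF.1, fun s hs => by rw [← hfac]; exact hF.2 s hs⟩
    refine ⟨fun ρ₀ A hρ₀ hA => ?_, fun hr => ?_⟩
    · have h6 := Y754.BL.law_F hL h4 h5 hρ₀ hA
      simp only [hlaw, hval]
      exact h6
    · obtain ⟨ρ₁, h6, h7⟩ := Y754.BL.law_thin hL h4 h5 hr
      refine ⟨ρ₁, h6, fun ρ ρ' A hρ hρ' hA => ?_⟩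
      rw [hlaw, hval]
      exact h7 ρ ρ' A hρ hρ' hA

end Pool.Agent.Results.MP_9ab903_nt.LeadingTermLaw
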